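import Pool.Agent.helper60.EPT.Spec

/-!
# Project EPT, row RIT: iteration
-/

set_option autoImplicit false

namespace Pool.Agent.EPT

open D

theorem RIT_step (f : D → D) : ∀ (i : ℕ) (m s : D),
    (fun u : D => cons u.fst.snd (f u.snd))^[i] (cons m s) = cons (snd^[i] m) (f^[i] s) := by
  intro i
  induction i with
  | zero => intro m s; rfl
  | succ i ih =>
    intro m s
    rw [Function.iterate_succ_apply, Function.iterate_succ_apply, Function.iterate_succ_apply]
    exact ih m.snd (f s)

theorem RIT_toList : ∀ (i : ℕ) (m : D), (snd^[i] m).toList = m.toList.drop i := by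
  intro i
  induction i with
  | zero => intro m; rfl
  | succ i ih =>
    intro m
    rw [Function.iterate_succ_apply, ih m.snd]
    cases m with
    | nil =>
      change ([] : List D).drop i = ([] : List D).drop (i + 1)
      simp
    | cons a b => rfl

theorem RIT_nil (x : D) : x = nil ↔ x.toList = [] := by
  cases x with
  | nil => simp
  | cons a b => simp

theorem RIT_size : ∀ (i : ℕ) (m : D), (snd^[i] m).size ≤ m.size := by
  intro i
  induction i with
  | zero => intro m; exact le_refl _
  | succ i ih =>
    intro m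
    rw [Function.iterate_succ_apply]
    exact le_trans (ih m.snd) (size_snd m)

theorem RIT (hPBC : PBC_stmt) (hRBA : RBA_stmt) (hRCG : RCG_stmt) (hRCO : RCO_stmt) (hRWL : RWL_stmt) : RIT_stmt := by
  intro S hS f n a hf hn ha hB
  obtain ⟨B, hB1, hB2⟩ := hB
  obtain ⟨hP1, hP2, hP3, -, -, -⟩ := hPBC
  obtain ⟨-, hfst, hsnd, -⟩ := hRBA
  obtain ⟨-, hG2, -, hG4⟩ := hRCG
  have hss : PB size size := hP2 size
  have h1 : RT size fun u : D => u.fst.snd := hG2 size snd fst hsnd hfst
  have h2 : RT size fun u : D => f u.snd := hG2 size f snd hf hsnd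
  have h3 : FP fun u : D => cons u.fst.snd (f u.snd) := (hRCO size hss _ _ h1 h2).1
  have h4 : RT S fun x => cons (n x) (a x) := (hRCO S hS _ _ hn ha).1
  have h5 : PB S fun x => (n x).size := hG4 S n hn
  have h6 : PB S fun x => (n x).size + B x + 1 := (hP3 S _ _ (hP3 S _ _ h5 hB1).1 (hP1 S 1)).1
  have hr : RT S fun x => (fun u : D => cons u.fst.snd (f u.snd))^[(n x).toList.length] (cons (n x) (a x)) := by
    refine hRWL S hS fst (fun u : D => cons u.fst.snd (f u.snd)) (fun x => cons (n x) (a x)) _ hfst h3 h4 ?_
    refine ⟨fun x => (n x).size + B x + 1, h6, fun x => ⟨(n x).toList.length, ?_, rfl, ?_, ?_, ?_⟩⟩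
    · have h7 := length_le_size (n x)
      change (n x).toList.length ≤ (n x).size + B x + 1
      omega
    · rw [RIT_step]
      change snd^[(n x).toList.length] (n x) = nil
      rw [RIT_nil, RIT_toList, List.drop_length]
    · intro i hi
      rw [RIT_step]
      change snd^[i] (n x) ≠ nil
      intro h7
      rw [RIT_nil, RIT_toList, List.drop_eq_nil_iff] at h7
      omega
    · intro i hi
      rw [RIT_step]
      change (snd^[i] (n x)).size + (f^[i] (a x)).size + 1 ≤ (n x).size + B x + 1
      have h7 := RIT_size i (n x)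
      have h8 := hB2 x i hi
      omega
  have h7 := hG2 S snd _ hsnd hr
  have h8 : (fun x => ((fun u : D => cons u.fst.snd (f u.snd))^[(n x).toList.length] (cons (n x) (a x))).snd) =
      fun x => f^[(n x).toList.length] (a x) := by
    funext x
    rw [RIT_step]
    rfl
  rw [h8] at h7
  exact h7

end Pool.Agent.EPT
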