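import Pool.Agent.helper60.EPT.Spec

/-!
# Project EPT, row VSZ: the size of the variables of a formula
-/

set_option autoImplicit false

namespace Pool.Agent.EPT

open D

theorem VSZ_list : ∀ r : D, (r.toList.map size).sum + 1 ≤ r.size
  | nil => by
    change ([] : List ℕ).sum + 1 ≤ 1
    simp
  | cons a b => by
    have h := VSZ_list b
    change ((a :: b.toList).map size).sum + 1 ≤ a.size + b.size + 1
    rw [List.map_cons, List.sum_cons]
    omega

theorem VSZ_aux : ∀ ψ : D, ((vars ψ).map size).sum ≤ ψ.size
  | nil => by
    change ([] : List ℕ).sum ≤ 1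
    simp
  | cons nil nil => by
    have h : vars (cons nil nil) = [] := by rw [vars]
    rw [h]
    simp
  | cons nil (cons a b) => by
    have ha := VSZ_aux a
    have hb := VSZ_aux b
    have h : vars (cons nil (cons a b)) = vars a ++ vars b := by rw [vars]
    rw [h, List.map_append, List.sum_append]
    change _ ≤ 1 + (a.size + b.size + 1) + 1
    omega
  | cons (cons a b) r => by
    have h : vars (cons (cons a b) r) = r.toList := by rw [vars]
    have h1 := VSZ_list r
    rw [h]
    change _ ≤ (a.size + b.size + 1) + r.size + 1
    omega

theorem VSZ : VSZ_stmt := VSZ_aux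

end Pool.Agent.EPT
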